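import Pool.Agent.E8helper36.CF.Stm

/-!
# Project CF (helper36), piece CEN: the center is in the convex hull
-/

set_option autoImplicit false

namespace Pool.Agent.E8helper98.CF

open Pool.Agent.E8helper36.CF

theorem sin_pos_int {n : ℕ} (hn : 0 < n) {u : ℤ} (h0 : 0 < u) (h1 : u < n) :
    0 < Real.sin (Real.pi * u / n) := by
  have hn' : (0 : ℝ) < n := by exact_mod_cast hn
  have h0' : (0 : ℝ) < u := by exact_mod_cast h0
  have h1' : (u : ℝ) < n := by exact_mod_cast h1
  apply Real.sin_pos_of_pos_of_lt_pi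
  · have := Real.pi_pos
    positivity
  · rw [div_lt_iff₀ hn']
    have := Real.pi_pos
    nlinarith

theorem sin_nonneg_int {n : ℕ} (hn : 0 < n) {u : ℤ} (h0 : 0 < u) (h1 : u ≤ n) :
    0 ≤ Real.sin (Real.pi * u / n) := by
  rcases lt_or_eq_of_le h1 with h | h
  · exact (sin_pos_int hn h0 h).le
  · have hn' : (n : ℝ) ≠ 0 := by exact_mod_cast hn.ne'
    rw [h]
    rw [show Real.pi * ((n : ℤ) : ℝ) / n = Real.pi by push_cast; field_simp]
    rw [Real.sin_pi]

theorem ident (A B C : ℝ) :
    (Real.sin (C - B) : ℂ) * Complex.exp (A * Complex.I) +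
      (Real.sin (A - C) : ℂ) * Complex.exp (B * Complex.I) +
      (Real.sin (B - A) : ℂ) * Complex.exp (C * Complex.I) = 0 := by
  rw [Complex.exp_mul_I, Complex.exp_mul_I, Complex.exp_mul_I, Real.sin_sub, Real.sin_sub,
    Real.sin_sub]
  push_cast
  ring

theorem tri {n : ℕ} (hn : 0 < n) (x y z : ℤ) (h1 : x < y) (h2 : y < z) (h3 : z < x + 2 * n)
    (h4 : y ≤ x + n) (h5 : z ≤ y + n) (h6 : x + n ≤ z) (S : Set ℂ) (hx : P n x ∈ S)
    (hy : P n y ∈ S) (hz : P n z ∈ S) : (0 : ℂ) ∈ convexHull ℝ S := by
  have hn' : (n : ℝ) ≠ 0 := by exact_mod_cast hn.ne'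
  set A : ℝ := Real.pi * x / n with hA
  set B : ℝ := Real.pi * y / n with hB
  set C : ℝ := Real.pi * z / n with hC
  have e1 : Real.sin (C - B) = Real.sin (Real.pi * ((z - y : ℤ) : ℝ) / n) := by
    congr 1
    rw [hC, hB]
    push_cast
    ring
  have e3 : Real.sin (B - A) = Real.sin (Real.pi * ((y - x : ℤ) : ℝ) / n) := by
    congr 1
    rw [hA, hB]
    push_cast
    ring
  have e2 : Real.sin (A - C) = Real.sin (Real.pi * ((x + 2 * n - z : ℤ) : ℝ) / n) := by
    rw [show Real.pi * ((x + 2 * n - z : ℤ) : ℝ) / n = A - C + 2 * Real.pi by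
      rw [hA, hC]
      push_cast
      field_simp
      ring]
    rw [Real.sin_add_two_pi]
  have w1 : 0 ≤ Real.sin (C - B) := by
    rw [e1]
    exact sin_nonneg_int hn (by omega) (by omega)
  have w2 : 0 ≤ Real.sin (A - C) := by
    rw [e2]
    exact sin_nonneg_int hn (by omega) (by omega)
  have w3 : 0 ≤ Real.sin (B - A) := by
    rw [e3]
    exact sin_nonneg_int hn (by omega) (by omega)
  have hpos : 0 < Real.sin (C - B) + Real.sin (A - C) + Real.sin (B - A) := by
    by_cases k1 : z - y < n
    · have := sin_pos_int hn (u := z - y) (by omega) k1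
      rw [← e1] at this
      linarith
    · by_cases k2 : y - x < n
      · have := sin_pos_int hn (u := y - x) (by omega) k2
        rw [← e3] at this
        linarith
      · exfalso
        omega
  set W : ℝ := Real.sin (C - B) + Real.sin (A - C) + Real.sin (B - A) with hW
  have hid := ident A B C
  have key := (convex_convexHull ℝ S).sum_mem (t := (Finset.univ : Finset (Fin 3)))
    (w := ![Real.sin (C - B) / W, Real.sin (A - C) / W, Real.sin (B - A) / W])
    (z := ![P n x, P n y, P n z])
    (by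
      intro i _
      fin_cases i
      · exact div_nonneg w1 hpos.le
      · exact div_nonneg w2 hpos.le
      · exact div_nonneg w3 hpos.le)
    (by
      rw [Fin.sum_univ_three]
      simp only [Matrix.cons_val_zero, Matrix.cons_val_one, Matrix.cons_val]
      rw [← add_div, ← add_div, ← hW, div_self hpos.ne'])
    (by
      intro i _
      fin_cases i
      · exact subset_convexHull ℝ S hx
      · exact subset_convexHull ℝ S hy
      · exact subset_convexHull ℝ S hz)
  rw [Fin.sum_univ_three] at key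
  simp only [Matrix.cons_val_zero, Matrix.cons_val_one, Matrix.cons_val, Complex.real_smul] at key
  have hz0 : ((Real.sin (C - B) / W : ℝ) : ℂ) * P n x + ((Real.sin (A - C) / W : ℝ) : ℂ) * P n y +
      ((Real.sin (B - A) / W : ℝ) : ℂ) * P n z = 0 := by
    have : ((Real.sin (C - B) / W : ℝ) : ℂ) * P n x + ((Real.sin (A - C) / W : ℝ) : ℂ) * P n y +
      ((Real.sin (B - A) / W : ℝ) : ℂ) * P n z =
      ((Real.sin (C - B) : ℂ) * P n x + (Real.sin (A - C) : ℂ) * P n y +
        (Real.sin (B - A) : ℂ) * P n z) / W := by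
      rw [Complex.ofReal_div, Complex.ofReal_div, Complex.ofReal_div]
      ring
    rw [this]
    unfold P
    rw [hid, zero_div]
  rw [hz0] at key
  exact key

/-- **piece CEN** -/
theorem t_CEN : S_CEN := by
  intro n a b c d hab hbc hcd hd h1 h2 h3 h4
  have hn : 0 < n := by omega
  by_cases hc : c ≤ a + n
  · refine tri hn (a : ℤ) (c : ℤ) (d : ℤ) (by omega) (by omega) (by omega) (by omega) (by omega)
      (by omega) _ ?_ ?_ ?_
    · simp
    · simp
    · simp
  · refine tri hn (a : ℤ) (b : ℤ) (c : ℤ) (by omega) (by omega) (by omega) (by omega) (by omega)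
      (by omega) _ ?_ ?_ ?_
    · simp
    · simp
    · simp

end Pool.Agent.E8helper98.CF
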